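import Mathlib
import Pool.Agent.N909.CL.Def

set_option autoImplicit false
set_option linter.unusedSectionVars false

/-! # The fair random Collatz map, largest values: definitions and statements of the parts -/

open MeasureTheory Filter Set ProbabilityTheory
open scoped ENNReal Topology

namespace Pool.Agent.N909.CX

open Pool.Agent.N909.CM Pool.Agent.N909.CL

/-- the words of length at most `k` -/
def Wd : ℕ → Finset (List Bool)
  | 0 => {[]}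
  | k + 1 => {[]} ∪ ((Wd k).image (fun w => true :: w) ∪ (Wd k).image (fun w => false :: w))

/-- the words of length `k` -/
def We : ℕ → Finset (List Bool)
  | 0 => {[]}
  | k + 1 => (We k).image (fun w => true :: w) ∪ (We k).image (fun w => false :: w)

/-- the slope of a word -/
noncomputable def sl (v : List Bool) : ℝ := 3 ^ (v.count true) / 2 ^ v.length

/-- words with a proportion of about `3/4` of steps up, in all prefixes -/
def Tube (M : ℕ) (v : List Bool) : Prop :=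
  ∀ j ≤ v.length, |(((v.take j).count true : ℕ) : ℝ) - 3 / 4 * j| ≤ j / 1000 + M

/-- the words in the tube which lead from `n` to a value at least `Y`, for the first time at the end -/
def Stp (M : ℕ) (Y : ℝ) (n : ℕ) (w : List Bool) : Prop :=
  Tube M w ∧ Y ≤ val n w ∧ ∀ j < w.length, (val n (w.take j) : ℝ) < Y

/-- the path `w` from `n` is realized -/
def Rz {Ω : Type} (B : ℕ → Set Ω) : ℕ → List Bool → Set Ω
  | _, [] => Set.univ
  | n, d :: w => {ω | ω ∈ B n ↔ d = true} ∩ Rz B (stp d n) w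

/-! ### Statements of the parts -/

/-- X0: values along words in the tube -/
def Stm0 : Prop := ∀ M : ℕ, ∃ N₀ : ℕ, ∀ n : ℕ, N₀ ≤ n → ∀ v : List Bool, Tube M v →
  sl v * n / 2 ≤ val n v ∧ (val n v : ℝ) ≤ 2 * (sl v * n)

/-- X1: the tube has tilted probability at least 1/2 -/
def Stm1 : Prop := ∃ M : ℕ, ∀ k : ℕ, open Classical in
  (1 : ℝ) / 2 ≤ ∑ w ∈ (We k).filter (fun w => Tube M w), (3 / 4 : ℝ) ^ (w.count true) * (1 / 4) ^ (k - w.count true)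

/-- X2: the probability of the stopping words -/
def Stm2 : Prop := ∀ M : ℕ, (∀ k : ℕ, open Classical in
    (1 : ℝ) / 2 ≤ ∑ w ∈ (We k).filter (fun w => Tube M w), (3 / 4 : ℝ) ^ (w.count true) * (1 / 4) ^ (k - w.count true)) →
  ∃ c N₀ : ℝ, ∀ n : ℕ, N₀ ≤ n → ∀ (Y : ℝ) (k : ℕ), (n : ℝ) ≤ Y → 9 * (Real.log (Y / n) + c) ≤ k →
    open Classical in (n : ℝ) / (16 * Y) ≤ ∑ w ∈ (Wd k).filter (fun w => Stp M Y n w), (1 / 2 : ℝ) ^ w.length

/-- X3: the expected number of starting points whose path meets a given path in the tube -/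
def Stm3 : Prop := ∀ M : ℕ, ∃ (C : ℝ) (N₀ : ℕ), ∀ N : ℕ, N₀ ≤ N → ∀ n : ℕ, N < n → ∀ w : List Bool, Tube M w → ∀ k : ℕ,
  open Classical in
    ∑ n' ∈ Finset.Ioc N n, ∑ v ∈ (Wd k).filter (fun v => Tube M v ∧ val n' v ∈ pos n w), (1 / 2 : ℝ) ^ v.length ≤ C

/-- X4: the positions along words in the tube -/
def Stm4 : Prop := ∀ M : ℕ, ∀ᶠ N : ℕ in atTop, ∀ n : ℕ, N ≤ n → ∀ w : List Bool, Tube M w →
  (w.length : ℝ) ≤ 20 * Real.log N → (∀ p ∈ pos n w, (N : ℝ) ^ (9 / 10 : ℝ) < p) ∧ (pos n w).Nodup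

/-- X5: probabilities -/
def Stm5 : Prop := ∀ {Ω : Type} {m0 : MeasurableSpace Ω} (μ : Measure Ω) [IsProbabilityMeasure μ]
  (B : ℕ → Set Ω), (∀ n, MeasurableSet (B n)) → iIndepSet B μ → (∀ n, μ.real (B n) = 1 / 2) →
  (∀ (n : ℕ) (w : List Bool), MeasurableSet (Rz B n w)) ∧
  (∀ (n : ℕ) (w : List Bool), (pos n w).Nodup → μ.real (Rz B n w) = (1 / 2) ^ w.length) ∧
  (∀ (n : ℕ) (A : Finset (List Bool)), (∀ w ∈ A, (pos n w).Nodup) → (∀ w ∈ A, ∀ w' ∈ A, w <+: w' → w = w') →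
    μ.real (⋃ w ∈ A, Rz B n w) = ∑ w ∈ A, (1 / 2 : ℝ) ^ w.length) ∧
  (∀ (n n' : ℕ) (A A' V : Finset (List Bool)), (∀ w ∈ A, (pos n w).Nodup) → (∀ w ∈ A', (pos n' w).Nodup) →
    (∀ w ∈ A', ∀ j < w.length, w.take j ∈ V) →
    open Classical in μ.real ((⋃ w ∈ A, Rz B n w) ∩ (⋃ w ∈ A', Rz B n' w)) ≤
      (∑ w ∈ A, (1 / 2 : ℝ) ^ w.length) * (∑ w ∈ A', (1 / 2 : ℝ) ^ w.length) +
        ∑ w ∈ A, (1 / 2 : ℝ) ^ w.length * ∑ v ∈ V.filter (fun v => val n' v ∈ pos n w), (1 / 2 : ℝ) ^ v.length)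

/-- X6: second moments -/
def Stm6 : Prop := ∀ {Ω : Type} {m0 : MeasurableSpace Ω} (μ : Measure Ω) [IsProbabilityMeasure μ]
  (I : Finset ℕ) (E : ℕ → Set Ω), (∀ n, MeasurableSet (E n)) →
  (∑ n ∈ I, μ.real (E n)) ^ 2 ≤ μ.real (⋃ n ∈ I, E n) * ∑ n ∈ I, ∑ n' ∈ I, μ.real (E n ∩ E n')

/-- X7: infinitely many scales -/
def Stm7 : Prop := ∀ {Ω : Type} {m0 : MeasurableSpace Ω} (μ : Measure Ω) [IsProbabilityMeasure μ]
  (B : ℕ → Set Ω), (∀ n, MeasurableSet (B n)) → iIndepSet B μ → ∀ (I : ℕ → Finset ℕ),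
  (∀ i j, i ≠ j → Disjoint (I i) (I j)) → ∀ (G : ℕ → Finset (ℕ × List Bool)),
  (∀ j, ∀ x ∈ G j, ∀ p ∈ pos x.1 x.2, p ∈ I j) → ∀ c : ℝ, 0 < c →
  (∀ᶠ j in atTop, c ≤ μ.real (⋃ x ∈ G j, Rz B x.1 x.2)) →
  ∀ᵐ ω ∂μ, ∃ᶠ j in atTop, ω ∈ ⋃ x ∈ G j, Rz B x.1 x.2

/-- X8: the upper bound -/
def Stm8 : Prop := ∀ {Ω : Type} {m0 : MeasurableSpace Ω} (μ : Measure Ω) [IsProbabilityMeasure μ]
  (B : ℕ → Set Ω), (∀ n, MeasurableSet (B n)) → iIndepSet B μ → (∀ n, μ.real (B n) = 1 / 2) → ∀ ε : ℝ, 0 < ε →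
  ∀ᵐ ω ∂μ, (∀ n, (orb (T B ω) n).Finite) ∧
    ∀ᶠ n : ℕ in atTop, ∀ x ∈ orb (T B ω) n, (x : ℝ) ≤ (n : ℝ) ^ 2 * Real.log n ^ (1 + ε)

end Pool.Agent.N909.CX
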