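import Mathlib
import Pool.Agent.N909.CX.Def

set_option autoImplicit false
set_option linter.unusedSectionVars false

/-! # The fair random Collatz map, largest values: one scale -/

open MeasureTheory Filter Set ProbabilityTheory
open scoped ENNReal Topology

namespace Pool.Agent.N909.CX

open Pool.Agent.N909.CM Pool.Agent.N909.CL

lemma mem_Wd_iff (k : ℕ) : ∀ w : List Bool, w ∈ Wd k ↔ w.length ≤ k := by
  induction k with
  | zero =>
    intro w
    simp [Wd]
  | succ k ih =>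
    intro w
    rcases w with _ | ⟨d, w⟩
    · simp [Wd]
    · rcases d with _ | _
      · simp [Wd, ih]
      · simp [Wd, ih]

lemma Tube.take {M : ℕ} {w : List Bool} (h : Tube M w) (j : ℕ) : Tube M (w.take j) := by
  intro i hi
  rw [List.length_take] at hi
  rw [List.take_take, min_eq_left (by omega)]
  exact h i (by omega)

/-- the pairs of a scale -/
noncomputable def GG (M : ℕ) (Y : ℕ → ℝ) (N k : ℕ) : Finset (ℕ × List Bool) :=
  open Classical in (Finset.Ioc N (N ^ 2) ×ˢ Wd k).filter (fun x => Stp M (Y x.1) x.1 x.2)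

theorem scale (h5 : Stm5) (h6 : Stm6) {Ω : Type} {m0 : MeasurableSpace Ω} (μ : Measure Ω) [IsProbabilityMeasure μ]
    (B : ℕ → Set Ω) (hB : ∀ n, MeasurableSet (B n)) (hi : iIndepSet B μ) (hp : ∀ n, μ.real (B n) = 1 / 2)
    {M N k : ℕ} {Y : ℕ → ℝ} {C e : ℝ}
    (hN : ∀ n ∈ Finset.Ioc N (N ^ 2), ∀ w, Tube M w → w.length ≤ k → (pos n w).Nodup)
    (h3 : ∀ n, N < n → ∀ w, Tube M w → open Classical in
      ∑ n' ∈ Finset.Ioc N n, ∑ v ∈ (Wd k).filter (fun v => Tube M v ∧ val n' v ∈ pos n w), (1 / 2 : ℝ) ^ v.length ≤ C)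
    (hC : 0 ≤ C) (he : 0 < e)
    (hsum : open Classical in e ≤ ∑ n ∈ Finset.Ioc N (N ^ 2), ∑ w ∈ (Wd k).filter (fun w => Stp M (Y n) n w), (1 / 2 : ℝ) ^ w.length) :
    e / (e + 2 * C) ≤ μ.real (⋃ x ∈ GG M Y N k, Rz B x.1 x.2) := by
  classical
  obtain ⟨hm, -, hu, hpair⟩ := h5 μ B hB hi hp
  set I := Finset.Ioc N (N ^ 2) with hI
  set A : ℕ → Finset (List Bool) := fun n => (Wd k).filter (fun w => Stp M (Y n) n w) with hA
  set E : ℕ → Set Ω := fun n => ⋃ w ∈ A n, Rz B n w with hE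
  set a : ℕ → ℝ := fun n => ∑ w ∈ A n, (1 / 2 : ℝ) ^ w.length with ha
  set V : Finset (List Bool) := (Wd k).filter (fun v => Tube M v) with hV
  set D : ℕ → ℕ → ℝ := fun n n' => ∑ w ∈ A n, (1 / 2 : ℝ) ^ w.length *
    ∑ v ∈ V.filter (fun v => val n' v ∈ pos n w), (1 / 2 : ℝ) ^ v.length with hD
  have hAm : ∀ n w, w ∈ A n → w.length ≤ k ∧ Stp M (Y n) n w := by
    intro n w hw
    simp only [hA, Finset.mem_filter, mem_Wd_iff] at hw
    exact hw
  have hnd : ∀ n ∈ I, ∀ w ∈ A n, (pos n w).Nodup := fun n hn w hw =>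
    hN n hn w (hAm n w hw).2.1 (hAm n w hw).1
  have hpf : ∀ n, ∀ w ∈ A n, ∀ w' ∈ A n, w <+: w' → w = w' := by
    intro n w hw w' hw' hpre
    by_contra hne
    have h1 : w.length < w'.length := by
      have h2 := hpre.length_le
      rcases lt_or_eq_of_le h2 with h | h
      · exact h
      · exact absurd (hpre.eq_of_length h) hne
    have h3 := (hAm n w' hw').2.2.2 w.length h1
    rw [← List.prefix_iff_eq_take.1 hpre] at h3
    exact absurd (hAm n w hw).2.2.1 (not_le.2 h3)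
  have hEm : ∀ n, MeasurableSet (E n) := fun n => Finset.measurableSet_biUnion _ fun w _ => hm n w
  have hEa : ∀ n ∈ I, μ.real (E n) = a n := fun n hn => hu n (A n) (hnd n hn) (hpf n)
  have hApre : ∀ n, ∀ w ∈ A n, ∀ j < w.length, w.take j ∈ V := by
    intro n w hw j hj
    obtain ⟨h1, h2⟩ := hAm n w hw
    simp only [hV, Finset.mem_filter, mem_Wd_iff, List.length_take]
    exact ⟨by omega, h2.1.take j⟩
  have hpr : ∀ n ∈ I, ∀ n' ∈ I, μ.real (E n ∩ E n') ≤ a n * a n' + D n n' := by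
    intro n hn n' hn'
    exact hpair n n' (A n) (A n') V (hnd n hn) (hnd n' hn') (hApre n')
  have ha0 : ∀ n, 0 ≤ a n := fun n => Finset.sum_nonneg fun w _ => by positivity
  have hD0 : ∀ n n', 0 ≤ D n n' := fun n n' => Finset.sum_nonneg fun w _ =>
    mul_nonneg (by positivity) (Finset.sum_nonneg fun v _ => by positivity)
  set S : ℝ := ∑ n ∈ I, a n with hS
  have hS' : e ≤ S := hsum
  -- the sum of the D
  have hDsum : ∀ n ∈ I, ∑ n' ∈ I, (if n' ≤ n then D n n' else 0) ≤ a n * C := by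
    intro n hn
    have hn1 : N < n := (Finset.mem_Ioc.1 hn).1
    have hn2 : n ≤ N ^ 2 := (Finset.mem_Ioc.1 hn).2
    have e1 : ∑ n' ∈ I, (if n' ≤ n then D n n' else 0) = ∑ n' ∈ Finset.Ioc N n, D n n' := by
      rw [← Finset.sum_filter]
      apply Finset.sum_congr _ (fun _ _ => rfl)
      ext x
      simp only [hI, Finset.mem_filter, Finset.mem_Ioc]
      omega
    rw [e1]
    simp only [hD]
    rw [Finset.sum_comm]
    have e2 : ∀ w ∈ A n, ∑ n' ∈ Finset.Ioc N n, (1 / 2 : ℝ) ^ w.length *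
        ∑ v ∈ V.filter (fun v => val n' v ∈ pos n w), (1 / 2 : ℝ) ^ v.length ≤ (1 / 2 : ℝ) ^ w.length * C := by
      intro w hw
      rw [← Finset.mul_sum]
      apply mul_le_mul_of_nonneg_left _ (by positivity)
      have h7 := h3 n hn1 w (hAm n w hw).2.1
      refine le_trans (le_of_eq ?_) h7
      apply Finset.sum_congr rfl
      intro n' _
      apply Finset.sum_congr _ (fun _ _ => rfl)
      ext v
      simp only [hV, Finset.mem_filter, and_assoc]
    refine (Finset.sum_le_sum e2).trans (le_of_eq ?_)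
    rw [← Finset.sum_mul]
  have htot : ∑ n ∈ I, ∑ n' ∈ I, μ.real (E n ∩ E n') ≤ S ^ 2 + 2 * (S * C) := by
    have h7 : ∀ n ∈ I, ∀ n' ∈ I, μ.real (E n ∩ E n') ≤
        a n * a n' + ((if n' ≤ n then D n n' else 0) + (if n ≤ n' then D n' n else 0)) := by
      intro n hn n' hn'
      rcases le_total n' n with h | h
      · rw [if_pos h]
        have := hpr n hn n' hn'
        have h8 : 0 ≤ (if n ≤ n' then D n' n else 0) := by split <;> [exact hD0 _ _; exact le_rfl]
        linarith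
      · rw [if_pos h]
        have := hpr n' hn' n hn
        rw [Set.inter_comm] at this
        have h8 : 0 ≤ (if n' ≤ n then D n n' else 0) := by split <;> [exact hD0 _ _; exact le_rfl]
        have h9 : a n' * a n = a n * a n' := mul_comm _ _
        linarith
    have h8 : ∑ n ∈ I, ∑ n' ∈ I, (if n' ≤ n then D n n' else 0) ≤ S * C := by
      refine (Finset.sum_le_sum hDsum).trans (le_of_eq ?_)
      rw [← Finset.sum_mul]
    have h9 : ∑ n ∈ I, ∑ n' ∈ I, (if n ≤ n' then D n' n else 0) ≤ S * C := by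
      rw [Finset.sum_comm]
      exact h8
    calc ∑ n ∈ I, ∑ n' ∈ I, μ.real (E n ∩ E n') ≤ ∑ n ∈ I, ∑ n' ∈ I,
          (a n * a n' + ((if n' ≤ n then D n n' else 0) + (if n ≤ n' then D n' n else 0))) :=
          Finset.sum_le_sum fun n hn => Finset.sum_le_sum fun n' hn' => h7 n hn n' hn'
      _ = S ^ 2 + (∑ n ∈ I, ∑ n' ∈ I, (if n' ≤ n then D n n' else 0) +
          ∑ n ∈ I, ∑ n' ∈ I, (if n ≤ n' then D n' n else 0)) := by
          simp only [Finset.sum_add_distrib]
          rw [sq, hS, Finset.sum_mul_sum]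
      _ ≤ S ^ 2 + 2 * (S * C) := by linarith
  have hcs := h6 μ I E hEm
  rw [Finset.sum_congr rfl hEa] at hcs
  have hS0 : 0 < S := he.trans_le hS'
  set U : ℝ := μ.real (⋃ n ∈ I, E n) with hU
  have hU0 : 0 ≤ U := measureReal_nonneg
  have hUeq : (⋃ x ∈ GG M Y N k, Rz B x.1 x.2) = ⋃ n ∈ I, E n := by
    ext ω
    simp only [GG, hE, hA, mem_iUnion, Finset.mem_filter, Finset.mem_product, exists_prop, Prod.exists]
    constructor
    · rintro ⟨n, w, ⟨⟨h1, h2⟩, h3⟩, h4⟩
      exact ⟨n, h1, w, ⟨h2, h3⟩, h4⟩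
    · rintro ⟨n, h1, w, ⟨h2, h3⟩, h4⟩
      exact ⟨n, w, ⟨⟨h1, h2⟩, h3⟩, h4⟩
  rw [hUeq]
  have h10 : S ^ 2 ≤ U * (S ^ 2 + 2 * (S * C)) := hcs.trans (mul_le_mul_of_nonneg_left htot hU0)
  have h11 : S ≤ U * (S + 2 * C) := by
    have : S * S ≤ S * (U * (S + 2 * C)) := by nlinarith
    exact le_of_mul_le_mul_left this hS0
  rw [div_le_iff₀ (by linarith)]
  have hU1 : U ≤ 1 := measureReal_le_one
  nlinarith

end Pool.Agent.N909.CX
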