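import Mathlib
import Pool.Agent.N909.CX.Scale
import Pool.Agent.N909.CL.Mom

set_option autoImplicit false
set_option linter.unusedSectionVars false

/-! # The fair random Collatz map, largest values: infinitely many scales -/

open MeasureTheory Filter Set ProbabilityTheory
open scoped ENNReal Topology

namespace Pool.Agent.N909.CX

open Pool.Agent.N909.CM Pool.Agent.N909.CL

lemma rz_val {Ω : Type} {B : ℕ → Set Ω} {ω : Ω} : ∀ (w : List Bool) (n : ℕ), ω ∈ Rz B n w →
    (T B ω)^[w.length] n = val n w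
  | [], n, _ => rfl
  | d :: w, n, h => by
    simp only [Rz, mem_inter_iff, mem_ofPred_eq] at h
    have h1 : T B ω n = stp d n := by
      unfold T stp
      rcases d with _ | _
      · simp only [Bool.false_eq_true, iff_false] at h
        simp [h.1]
      · simp only [iff_true] at h
        simp [h.1]
    rw [List.length_cons, Function.iterate_succ_apply, h1]
    exact rz_val w _ h.2

lemma sum_inv_ge {N m : ℕ} (h : N ≤ m) :
    Real.log ((m : ℝ) + 1) - Real.log ((N : ℝ) + 1) ≤ ∑ n ∈ Finset.Ioc N m, 1 / (n : ℝ) := by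
  induction m, h using Nat.le_induction with
  | base => simp
  | succ m hm ih =>
    rw [Finset.sum_Ioc_succ_top (by omega)]
    have h1 : Real.log (((m + 1 : ℕ) : ℝ) + 1) - Real.log ((m : ℝ) + 1) ≤ 1 / ((m + 1 : ℕ) : ℝ) := by
      push_cast
      rw [← Real.log_div (by positivity) (by positivity)]
      have h2 : Real.log (((m : ℝ) + 1 + 1) / ((m : ℝ) + 1)) ≤ ((m : ℝ) + 1 + 1) / ((m : ℝ) + 1) - 1 :=
        Real.log_le_sub_one_of_pos (by positivity)
      refine h2.trans (le_of_eq ?_)
      field_simp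
      ring
    linarith

/-- the scales -/
def NN (j : ℕ) : ℕ := 2 ^ (16 ^ j)

lemma NN_tendsto : Tendsto NN atTop atTop :=
  (tendsto_pow_atTop_atTop_of_one_lt (by norm_num : 1 < 2)).comp (tendsto_pow_atTop_atTop_of_one_lt (by norm_num : 1 < 16))

/-- the level -/
noncomputable def YY (C : ℕ) (n : ℕ) : ℝ := C * (n : ℝ) ^ 2 * Real.log n

/-- the number of steps -/
noncomputable def kk (N : ℕ) : ℕ := ⌊20 * Real.log N⌋₊

theorem lower (h2 : Stm2) (h1 : Stm1) (h3 : Stm3) (h4 : Stm4) (h5 : Stm5) (h6 : Stm6) (h7 : Stm7)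
    {Ω : Type} {m0 : MeasurableSpace Ω} (μ : Measure Ω) [IsProbabilityMeasure μ]
    (B : ℕ → Set Ω) (hB : ∀ n, MeasurableSet (B n)) (hi : iIndepSet B μ) (hp : ∀ n, μ.real (B n) = 1 / 2)
    {C : ℕ} (hC : 1 ≤ C) :
    ∀ᵐ ω ∂μ, ∃ᶠ n : ℕ in atTop, ∃ x ∈ orb (T B ω) n, C * (n : ℝ) ^ 2 * Real.log n ≤ x := by
  classical
  obtain ⟨M, hM⟩ := h1
  obtain ⟨c, N₀, h2'⟩ := h2 M hM
  obtain ⟨C3, N₃, h3'⟩ := h3 M
  have h4' := h4 M
  have hC0 : (0 : ℝ) < C := by exact_mod_cast (by omega : 0 < C)
  have hC1 : (1 : ℝ) ≤ C := by exact_mod_cast hC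
  have hlog : Tendsto (fun n : ℕ => Real.log n) atTop atTop := Real.tendsto_log_atTop.comp tendsto_natCast_atTop_atTop
  have hlo : (fun x : ℝ => Real.log x) =o[atTop] (fun x : ℝ => x) := Real.isLittleO_log_id_atTop
  have hlo2 := (hlo.comp_tendsto tendsto_natCast_atTop_atTop).bound (show (0 : ℝ) < 1 / (2 * C) by positivity)
  -- all eventual conditions
  have hev : ∀ᶠ N : ℕ in atTop, 2 ≤ N ∧ N₃ ≤ N ∧ N₀ ≤ (N : ℝ) ∧ 2 ≤ Real.log N ∧
      9 * (Real.log C + Real.log 20 + c) + 1 ≤ 11 / 10 * Real.log N ∧ 2 * C * Real.log N ≤ N ∧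
      (∀ n : ℕ, N ≤ n → ∀ w : List Bool, Tube M w → (w.length : ℝ) ≤ 20 * Real.log N →
        (∀ p ∈ pos n w, (N : ℝ) ^ (9 / 10 : ℝ) < p) ∧ (pos n w).Nodup) := by
    filter_upwards [eventually_ge_atTop 2, eventually_ge_atTop N₃, tendsto_natCast_atTop_atTop.eventually_ge_atTop N₀,
      hlog.eventually_ge_atTop 2, hlog.eventually_ge_atTop ((9 * (Real.log C + Real.log 20 + c) + 1) / (11 / 10)),
      hlo2, h4'] with N g1 g2 g3 g4 g5 g6 g7
    refine ⟨g1, g2, g3, g4, ?_, ?_, g7⟩
    · rw [div_le_iff₀ (by norm_num)] at g5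
      linarith
    · simp only [Function.comp_apply, Real.norm_eq_abs] at g6
      rw [abs_of_nonneg (by linarith), abs_of_nonneg (by positivity), div_mul_eq_mul_div, one_mul,
        le_div_iff₀ (by positivity)] at g6
      linarith
  obtain ⟨j₀, hj₀⟩ := eventually_atTop.1 (NN_tendsto.eventually hev)
  set G : ℕ → Finset (ℕ × List Bool) := fun j => if j₀ ≤ j then GG M (YY C) (NN j) (kk (NN j)) else ∅ with hG
  have hGm : ∀ j, ∀ x ∈ G j, j₀ ≤ j ∧ NN j < x.1 ∧ x.1 ≤ NN j ^ 2 ∧ x.2.length ≤ kk (NN j) ∧ Stp M (YY C x.1) x.1 x.2 := by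
    intro j x hx
    simp only [hG] at hx
    by_cases hj : j₀ ≤ j
    · rw [if_pos hj] at hx
      simp only [GG, Finset.mem_filter, Finset.mem_product, Finset.mem_Ioc, mem_Wd_iff] at hx
      exact ⟨hj, hx.1.1.1, hx.1.1.2, hx.1.2, hx.2⟩
    · rw [if_neg hj] at hx
      exact absurd hx (Finset.notMem_empty _)
  -- the level is at most N ^ 5
  have hlogn : ∀ j, j₀ ≤ j → ∀ n : ℕ, NN j < n → n ≤ NN j ^ 2 → 0 < Real.log n ∧ Real.log n ≤ 2 * Real.log (NN j) := by
    intro j hj n hn1 hn2
    obtain ⟨g1, -⟩ := hj₀ j hj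
    refine ⟨Real.log_pos (by exact_mod_cast (by omega : 1 < n)), ?_⟩
    have : (n : ℝ) ≤ (NN j : ℝ) ^ 2 := by exact_mod_cast hn2
    have h := Real.log_le_log (by exact_mod_cast (by omega : 0 < n)) this
    rwa [Real.log_pow] at h
  have hk : ∀ j, (kk (NN j) : ℝ) ≤ 20 * Real.log (NN j) := by
    intro j
    refine Nat.floor_le ?_
    have : (1 : ℝ) ≤ (NN j : ℝ) := by
      have : 0 < NN j := by unfold NN; positivity
      exact_mod_cast this
    have := Real.log_nonneg this
    linarith
  have key := h7 μ B hB hi (fun j => Finset.Ioc (2 ^ (16 ^ j / 2)) (2 ^ (5 * 16 ^ j))) (by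
    have haux : ∀ i j : ℕ, i < j → Disjoint (Finset.Ioc (2 ^ (16 ^ i / 2)) (2 ^ (5 * 16 ^ i)))
        (Finset.Ioc (2 ^ (16 ^ j / 2)) (2 ^ (5 * 16 ^ j))) := by
      intro i j hij
      rw [Finset.disjoint_left]
      intro x hx hx'
      rw [Finset.mem_Ioc] at hx hx'
      have e1 : 5 * 16 ^ i ≤ 16 ^ j / 2 := by
        have : 16 ^ (i + 1) ≤ 16 ^ j := Nat.pow_le_pow_right (by norm_num) hij
        rw [pow_succ] at this
        omega
      have e2 : 2 ^ (5 * 16 ^ i) ≤ 2 ^ (16 ^ j / 2) := Nat.pow_le_pow_right (by norm_num) e1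
      omega
    intro i j hij
    rcases lt_or_gt_of_ne hij with h | h
    · exact haux i j h
    · exact (haux j i h).symm) G (by
    intro j x hx p hpp
    obtain ⟨hj, g1, g2, g3, g4⟩ := hGm j x hx
    obtain ⟨q1, -, -, q4, -, q6, q7⟩ := hj₀ j hj
    obtain ⟨l1, l2⟩ := hlogn j hj x.1 g1 g2
    have hlen : ((x.2.length : ℕ) : ℝ) ≤ 20 * Real.log (NN j) := by
      have : ((x.2.length : ℕ) : ℝ) ≤ (kk (NN j) : ℝ) := by exact_mod_cast g3
      exact this.trans (hk j)
    have hlow := (q7 x.1 g1.le x.2 g4.1 hlen).1 p hpp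
    rw [Finset.mem_Ioc]
    constructor
    · have e1 : ((2 ^ (16 ^ j / 2) : ℕ) : ℝ) ≤ (NN j : ℝ) ^ (9 / 10 : ℝ) := by
        unfold NN
        push_cast
        rw [← Real.rpow_natCast 2 (16 ^ j / 2), ← Real.rpow_natCast 2 (16 ^ j), ← Real.rpow_mul (by norm_num)]
        apply Real.rpow_le_rpow_of_exponent_le (by norm_num)
        have : ((16 ^ j / 2 : ℕ) : ℝ) ≤ ((16 ^ j : ℕ) : ℝ) / 2 := Nat.cast_div_le
        push_cast at this ⊢
        have h16 : (0 : ℝ) < 16 ^ j := by positivity
        linarith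
      exact_mod_cast e1.trans_lt hlow
    · obtain ⟨i, hi', hip⟩ := List.getElem_of_mem hpp
      have hil : i < x.2.length := by rwa [pos_length] at hi'
      rw [pos_get x.2 x.1 i hil] at hip
      have h8 := g4.2.2 i hil
      rw [hip] at h8
      have h9 : (x.1 : ℝ) ≤ (NN j : ℝ) ^ 2 := by exact_mod_cast g2
      have hNp : (0 : ℝ) < NN j := by exact_mod_cast (by omega : 0 < NN j)
      have h10 : YY C x.1 ≤ (NN j : ℝ) ^ 5 := by
        unfold YY
        calc (C : ℝ) * (x.1 : ℝ) ^ 2 * Real.log x.1 ≤ C * ((NN j : ℝ) ^ 2) ^ 2 * (2 * Real.log (NN j)) := by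
              gcongr
          _ = (NN j : ℝ) ^ 4 * (2 * C * Real.log (NN j)) := by ring
          _ ≤ (NN j : ℝ) ^ 4 * (NN j) := mul_le_mul_of_nonneg_left q6 (by positivity)
          _ = (NN j : ℝ) ^ 5 := by ring
      have h11 : (p : ℝ) ≤ ((NN j ^ 5 : ℕ) : ℝ) := by
        push_cast
        linarith
      have h12 : p ≤ NN j ^ 5 := by exact_mod_cast h11
      have h13 : NN j ^ 5 = 2 ^ (5 * 16 ^ j) := by
        unfold NN
        rw [← pow_mul, mul_comm]
      rwa [← h13]) ((1 / (64 * C)) / (1 / (64 * C) + 2 * max C3 0)) (by positivity) (by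
    filter_upwards [eventually_ge_atTop j₀] with j hj
    obtain ⟨q1, q2, q3, q4, q5, q6, q7⟩ := hj₀ j hj
    simp only [hG]
    rw [if_pos hj]
    refine scale h5 h6 μ B hB hi hp (C := max C3 0) (e := 1 / (64 * C)) ?_ ?_ (le_max_right _ _) (by positivity) ?_
    · intro n hn w hw hwk
      rw [Finset.mem_Ioc] at hn
      refine (q7 n hn.1.le w hw ?_).2
      have : ((w.length : ℕ) : ℝ) ≤ (kk (NN j) : ℝ) := by exact_mod_cast hwk
      exact this.trans (hk j)
    · intro n hn w hw
      refine le_trans (le_of_eq ?_) ((h3' (NN j) q2 n hn w hw (kk (NN j))).trans (le_max_left _ _))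
      apply Finset.sum_congr rfl
      intro n' _
      apply Finset.sum_congr _ (fun _ _ => rfl)
      ext v
      simp only [Finset.mem_filter]
    · -- the first moment
      have hNp : (0 : ℝ) < NN j := by exact_mod_cast (by omega : 0 < NN j)
      set L : ℝ := Real.log (NN j) with hL
      have hterm : ∀ n ∈ Finset.Ioc (NN j) (NN j ^ 2), 1 / (32 * C * L) * (1 / (n : ℝ)) ≤
          ∑ w ∈ (Wd (kk (NN j))).filter (fun w => Stp M (YY C n) n w), (1 / 2 : ℝ) ^ w.length := by
        intro n hn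
        rw [Finset.mem_Ioc] at hn
        obtain ⟨l1, l2⟩ := hlogn j hj n hn.1 hn.2
        have hn0 : (0 : ℝ) < n := by exact_mod_cast (by omega : 0 < n)
        have hnN : (NN j : ℝ) ≤ n := by exact_mod_cast hn.1.le
        have hlN : L ≤ Real.log n := Real.log_le_log hNp hnN
        have hY0 : 0 < YY C n := by unfold YY; positivity
        have hYn : (n : ℝ) ≤ YY C n := by
          unfold YY
          have e1 : (1 : ℝ) ≤ C * n * Real.log n := by
            have : (1 : ℝ) ≤ n := by exact_mod_cast (by omega : 1 ≤ n)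
            have h8 : 1 ≤ Real.log n := by linarith
            have h9 : (1 : ℝ) ≤ C * n := one_le_mul_of_one_le_of_one_le hC1 this
            exact one_le_mul_of_one_le_of_one_le h9 h8
          calc (n : ℝ) = n * 1 := (mul_one _).symm
            _ ≤ n * (C * n * Real.log n) := mul_le_mul_of_nonneg_left e1 hn0.le
            _ = C * (n : ℝ) ^ 2 * Real.log n := by ring
        have hdiv : YY C n / n = C * n * Real.log n := by
          unfold YY
          field_simp
        have hkn : 9 * (Real.log (YY C n / n) + c) ≤ (kk (NN j) : ℝ) := by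
          rw [hdiv, Real.log_mul (by positivity) l1.ne', Real.log_mul hC0.ne' hn0.ne']
          have e1 : Real.log (Real.log n) ≤ L / 10 - 1 + Real.log 20 := by
            have e2 : Real.log (Real.log n) ≤ Real.log (2 * L) := Real.log_le_log l1 l2
            have hL0 : 0 < L := by linarith
            have e3 : 2 * L = (L / 10) * 20 := by ring
            rw [e3, Real.log_mul (by positivity) (by norm_num)] at e2
            have e4 := Real.log_le_sub_one_of_pos (show 0 < L / 10 by positivity)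
            linarith
          have e5 := Nat.lt_floor_add_one (20 * Real.log (NN j))
          have e6 : (kk (NN j) : ℝ) + 1 = (⌊20 * Real.log (NN j)⌋₊ : ℝ) + 1 := rfl
          rw [← e6, ← hL] at e5
          linarith
        have := h2' n (by linarith) (YY C n) (kk (NN j)) hYn hkn
        refine le_trans ?_ this
        have e7 : (n : ℝ) / (16 * YY C n) = 1 / (16 * C * Real.log n) * (1 / n) := by
          unfold YY
          field_simp
        rw [e7]
        apply mul_le_mul_of_nonneg_right _ (by positivity)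
        apply one_div_le_one_div_of_le (by positivity)
        nlinarith
      refine le_trans ?_ (Finset.sum_le_sum hterm)
      rw [← Finset.mul_sum]
      have hNN : NN j ≤ NN j ^ 2 := by nlinarith
      have h8 := sum_inv_ge hNN
      have h9 : L / 2 ≤ Real.log (((NN j ^ 2 : ℕ) : ℝ) + 1) - Real.log ((NN j : ℝ) + 1) := by
        have e1 : Real.log ((NN j : ℝ) + 1) ≤ Real.log 2 + L := by
          rw [hL, ← Real.log_mul (by norm_num) hNp.ne']
          apply Real.log_le_log (by positivity)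
          have : (1 : ℝ) ≤ NN j := by exact_mod_cast (by omega : 1 ≤ NN j)
          linarith
        have e2 : 2 * L ≤ Real.log (((NN j ^ 2 : ℕ) : ℝ) + 1) := by
          have e3 : 2 * L = Real.log ((NN j : ℝ) ^ 2) := by rw [Real.log_pow]; rfl
          rw [e3]
          apply Real.log_le_log (by positivity)
          push_cast
          linarith
        have e3 := Real.log_two_lt_d9
        linarith
      have hL0 : 0 < L := by linarith
      calc 1 / (64 * (C : ℝ)) = 1 / (32 * C * L) * (L / 2) := by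
            field_simp
            ring
        _ ≤ 1 / (32 * C * L) * ∑ n ∈ Finset.Ioc (NN j) (NN j ^ 2), 1 / (n : ℝ) :=
            mul_le_mul_of_nonneg_left (h9.trans h8) (by positivity))
  filter_upwards [key] with ω hω
  rw [frequently_atTop]
  intro n₀
  obtain ⟨j, hj1, hj2⟩ := (frequently_atTop.1 hω) n₀
  simp only [mem_iUnion, exists_prop] at hj2
  obtain ⟨x, hx, hx2⟩ := hj2
  obtain ⟨hj, g1, g2, g3, g4⟩ := hGm j x hx
  refine ⟨x.1, ?_, val x.1 x.2, ⟨x.2.length, rz_val x.2 x.1 hx2⟩, ?_⟩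
  · have e1 : j < 16 ^ j := Nat.lt_pow_self (by norm_num)
    have e2 : 16 ^ j < NN j := by unfold NN; exact Nat.lt_two_pow_self
    omega
  · exact g4.2.1

end Pool.Agent.N909.CX
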